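import Pool.Agent.MP_c69980_ag.H43.Spec10

/-!
Single-valued algebraic functions on a curve are rational.
-/

set_option autoImplicit false

namespace Pool.Agent.MP_c69980_ag.H43

open Filter Topology Metric Asymptotics Polynomial Finset IntermediateField
open Pool.Agent.MP_f3836a_nt.PK

variable {L : Type} [Field L] [Algebra ℂ L]

theorem rat_root {n : ℕ} {c : Fin n → ℂ} {z : ℂ} (h : ∑ i, c i * z ^ (i : ℕ) + z ^ n = 0) :
    ‖z‖ ≤ 1 + ∑ i, ‖c i‖ := by
  have h0 : 0 ≤ ∑ i, ‖c i‖ := sum_nonneg fun _ _ => norm_nonneg _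
  by_contra a
  have h1 : 1 < ‖z‖ := by linarith
  have h2 : ‖z‖ * ‖z‖ ^ n ≤ (∑ i, ‖c i‖) * ‖z‖ ^ n := by
    have h3 : ‖z‖ ^ n ≤ ∑ i, ‖c i‖ * ‖z‖ ^ (i : ℕ) := by
      rw [← norm_pow, eq_neg_of_add_eq_zero_right h, norm_neg]
      exact (norm_sum_le _ _).trans_eq (by simp)
    refine (mul_le_mul_of_nonneg_left h3 (norm_nonneg _)).trans ?_
    rw [mul_sum, sum_mul]
    refine sum_le_sum fun i _ => ?_
    rw [mul_left_comm, ← pow_succ']
    exact mul_le_mul_of_nonneg_left (pow_le_pow_right₀ h1.le i.2) (norm_nonneg _)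
  have := le_of_mul_le_mul_right h2 (by positivity)
  linarith

theorem rat_lin {n : ℕ} {f g c b : Fin n → ℂ} {M : Matrix (Fin n) (Fin n) ℂ} {δ : ℂ}
    (hf : Function.Injective f) (hM : ∀ k l, M k l = ∑ j, f j ^ (k + l : ℕ))
    (hb : ∀ k, b k = ∑ j, g j * f j ^ (k : ℕ)) (h : ∀ k, ∑ l, M k l * c l = δ * b k) :
    M.det ≠ 0 ∧ ∀ j, ∑ l, c l * f j ^ (l : ℕ) = δ * g j := by
  constructor
  · have : M = (Matrix.vandermonde f).transpose * Matrix.vandermonde f := by
      ext k l
      simp [hM, Matrix.mul_apply, pow_add]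
    rw [this, Matrix.det_mul, Matrix.det_transpose]
    exact mul_self_ne_zero.2 (Matrix.det_vandermonde_ne_zero_iff.2 hf)
  · have := Matrix.eq_zero_of_forall_pow_sum_mul_pow_eq_zero
      (v := fun j => ∑ l, c l * f j ^ (l : ℕ) - δ * g j) hf fun k => by
        have h1 := h k
        simp only [hM, hb, sum_mul, mul_sum] at h1
        simp only [sub_mul, sum_sub_distrib, sum_mul]
        rw [sum_comm, sub_eq_zero]
        refine (sum_congr rfl fun l _ => sum_congr rfl fun j _ => by ring).trans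
          (h1.trans (sum_congr rfl fun j _ => by ring))
    exact fun j => sub_eq_zero.1 (congrFun this j)

/-- Polynomial growth. -/
def RatGr (T : L) (φ : Pl L → ℂ) : Prop :=
  ∃ N : ℕ, φ =O[cofinite] fun P : Pl L => (1 + ‖P.val T‖) ^ N

/-- Polynomial growth after multiplication by a polynomial. -/
def RatTm (T : L) (φ : Pl L → ℂ) : Prop :=
  ∃ a : ℂ[X], a ≠ 0 ∧ RatGr T fun P => a.eval (P.val T) * φ P

variable {T : L} {φ ψ : Pl L → ℂ}

theorem RatGr.mul (a : RatGr T φ) (b : RatGr T ψ) : RatGr T fun P => φ P * ψ P := by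
  obtain ⟨N, a⟩ := a
  obtain ⟨M, b⟩ := b
  exact ⟨N + M, by simpa only [pow_add] using a.mul b⟩

theorem RatGr.add (a : RatGr T φ) (b : RatGr T ψ) : RatGr T fun P => φ P + ψ P := by
  obtain ⟨N, a⟩ := a
  obtain ⟨M, b⟩ := b
  have k : ∀ n m : ℕ, n ≤ m → (fun P : Pl L => (1 + ‖P.val T‖) ^ n) =O[cofinite]
      fun P : Pl L => (1 + ‖P.val T‖) ^ m := fun n m h => IsBigO.of_bound' (.of_forall fun P => by
    rw [Real.norm_of_nonneg (by positivity), Real.norm_of_nonneg (by positivity)]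
    exact pow_le_pow_right₀ (by simp) h)
  exact ⟨N + M, (a.trans (k _ _ (by omega))).add (b.trans (k _ _ (by omega)))⟩

theorem RatGr.poly (p : ℂ[X]) : RatGr T fun P => p.eval (P.val T) := by
  induction p using Polynomial.induction_on' with
  | add p q a b => simpa only [eval_add] using a.add b
  | monomial n c =>
    refine ⟨n, ?_⟩
    simp only [eval_monomial]
    refine IsBigO.const_mul_left (IsBigO.of_bound' (.of_forall fun P => ?_)) c
    rw [norm_pow, Real.norm_of_nonneg (by positivity)]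
    exact pow_le_pow_left₀ (norm_nonneg _) (by simp) n

theorem RatGr.pow (a : RatGr T φ) (n : ℕ) : RatGr T fun P => φ P ^ n := by
  obtain ⟨N, a⟩ := a
  exact ⟨N * n, by simpa only [pow_mul] using a.pow n⟩

theorem RatTm.mono (a : RatTm T φ) (h : ∀ᶠ P in cofinite, ‖ψ P‖ ≤ ‖φ P‖) : RatTm T ψ := by
  obtain ⟨a, a0, N, b⟩ := a
  refine ⟨a, a0, N, (IsBigO.of_bound' (h.mono fun P k => ?_)).trans b⟩
  rw [norm_mul, norm_mul]
  exact mul_le_mul_of_nonneg_left k (norm_nonneg _)

theorem RatTm.one : RatTm T fun _ => 1 := ⟨1, one_ne_zero, by simpa using RatGr.poly (T := T) 1⟩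

theorem RatTm.add (a : RatTm T φ) (b : RatTm T ψ) : RatTm T fun P => φ P + ψ P := by
  obtain ⟨a, a0, a1⟩ := a
  obtain ⟨b, b0, b1⟩ := b
  refine ⟨a * b, mul_ne_zero a0 b0, ?_⟩
  convert ((RatGr.poly b).mul a1).add ((RatGr.poly a).mul b1) using 2
  rw [eval_mul]
  ring

theorem RatTm.sum {ι : Type} (s : Finset ι) {f : ι → Pl L → ℂ} (h : ∀ i, RatTm T (f i)) :
    RatTm T fun P => 1 + ∑ i ∈ s, f i P := by
  classical
  induction s using Finset.induction_on with
  | empty => simpa using RatTm.one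
  | insert i s hi ih => simpa only [sum_insert hi, add_left_comm] using (h i).add ih

section
variable (h : FFd L)
include h

theorem rat_mem (x : L) : ∀ᶠ P : Pl L in cofinite, x ∈ P.V :=
  (h.lam_fin x).eventually_cofinite_notMem.mono fun P k =>
    (h.lam_eq_zero P x).1 (by simpa using k)

theorem rat_con (c : ℂ) (P : Pl L) : P.val (algebraMap ℂ L c) = c := (h.a.hom P).choose_spec.2 c

/-- The germ of the values. -/
noncomputable def ratG : L →+* Germ (cofinite : Filter (Pl L)) ℂ where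
  toFun x := (fun P : Pl L => P.val x : Pl L → ℂ)
  map_one' := congrArg _ (funext fun P => by simpa using rat_con h 1 P)
  map_zero' := congrArg _ (funext fun P => by simpa using rat_con h 0 P)
  map_mul' x y := Germ.coe_eq.2 (((rat_mem h x).and (rat_mem h y)).mono fun P k => by
    obtain ⟨χ, a, -⟩ := h.a.hom P
    exact (a (⟨x, k.1⟩ * ⟨y, k.2⟩)).symm.trans ((map_mul χ _ _).trans (by rw [a, a])))
  map_add' x y := Germ.coe_eq.2 (((rat_mem h x).and (rat_mem h y)).mono fun P k => by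
    obtain ⟨χ, a, -⟩ := h.a.hom P
    exact (a (⟨x, k.1⟩ + ⟨y, k.2⟩)).symm.trans ((map_add χ _ _).trans (by rw [a, a])))

theorem rat_mul (x y : L) : ∀ᶠ P : Pl L in cofinite, P.val (x * y) = P.val x * P.val y :=
  Germ.coe_eq.1 (map_mul (ratG h) x y)

theorem rat_sum {n : ℕ} (A : Fin n → L) (y : L) : ∀ᶠ P : Pl L in cofinite,
    P.val (∑ i, A i * y ^ (i : ℕ)) = ∑ i, P.val (A i) * P.val y ^ (i : ℕ) := by
  have := map_sum (ratG h) (fun i => A i * y ^ (i : ℕ)) univ
  simp only [map_mul, map_pow] at this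
  refine Germ.coe_eq.1 (this.trans ?_)
  rw [← Finset.sum_fn]
  exact (map_sum (Germ.coeRingHom _) _ _).symm

theorem rat_aeval (T : L) (p : ℂ[X]) :
    ∀ᶠ P : Pl L in cofinite, P.val (aeval T p) = p.eval (P.val T) := by
  refine (rat_sum h (fun i : Fin (p.natDegree + 1) => algebraMap ℂ L (p.coeff i)) T).mono
    fun P k => ?_
  simp only [rat_con h] at k
  rw [aeval_eq_sum_range, eval_eq_sum_range, Finset.sum_range, Finset.sum_range, ← k]
  simp only [Algebra.smul_def]

theorem rat_alg (K : IntermediateField ℂ L) (hK : ∀ y ∈ K, RatTm T fun P => P.val y) (d : ℕ) :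
    ∀ A : Fin d → L, A ≠ 0 → (∀ i, A i ∈ K) →
      (∀ᶠ P : Pl L in cofinite, ∑ i, P.val (A i) * φ P ^ (i : ℕ) = 0) → RatTm T φ := by
  induction d with
  | zero => exact fun A a => absurd (Subsingleton.elim _ _) a
  | succ d ih =>
    intro A a b c
    simp only [Fin.sum_univ_castSucc, Fin.val_castSucc, Fin.val_last] at c
    by_cases e : A (Fin.last d) = 0
    · refine ih (fun i => A i.castSucc) (fun k => a (funext fun i => ?_)) (fun i => b _)
        (c.mono fun P k => ?_)
      · exact Fin.lastCases e (fun i => congrFun k i) i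
      · simpa [e, show P.val 0 = 0 by simpa using rat_con h 0 P] using k
    refine (RatTm.sum univ fun i : Fin d => (hK _ (K.div_mem (b i.castSucc) (b (Fin.last d)))).mono
      (ψ := fun P => (‖P.val (A i.castSucc / A (Fin.last d))‖ : ℂ))
      (.of_forall fun P => by simp)).mono ?_
    filter_upwards [c, rat_mul h (A (Fin.last d))⁻¹ (A (Fin.last d)),
      eventually_all.2 fun i : Fin d => rat_mul h (A i.castSucc) (A (Fin.last d))⁻¹] with P k1 k2 k3
    rw [inv_mul_cancel₀ e, show P.val 1 = 1 by simpa using rat_con h 1 P] at k2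
    refine (rat_root (c := fun i : Fin d => P.val (A i.castSucc / A (Fin.last d))) ?_).trans ?_
    · simp only [div_eq_mul_inv, k3, mul_right_comm, ← sum_mul]
      linear_combination P.val (A (Fin.last d))⁻¹ * k1 + φ P ^ d * k2
    · norm_cast
      exact le_abs_self _

theorem rat_tm (hT : Transcendental ℂ T) (y : L) : RatTm T fun P => P.val y := by
  have := h.b.fd T hT
  have hi : IsIntegral (adjoin ℂ {T}) y := .of_finite _ _
  refine rat_alg h (adjoin ℂ {T}) (fun x hx => ?_) _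
    (fun i : Fin ((minpoly (adjoin ℂ {T}) y).natDegree + 1) => (minpoly (adjoin ℂ {T}) y).coeff i)
    (fun k => ?_) (fun i => Subtype.prop _) ((rat_sum h _ y).mono fun P k => k.symm.trans ?_)
  · obtain ⟨r, s, rfl⟩ := (mem_adjoin_simple_iff ℂ x).1 hx
    by_cases e : aeval T s = 0
    · exact RatTm.one.mono (.of_forall fun P => by
        simp [e, show P.val 0 = 0 by simpa using rat_con h 0 P])
    obtain ⟨N, a⟩ := RatGr.poly (T := T) r
    refine ⟨s, fun k => e (by simp [k]), N, a.congr' ?_ EventuallyEq.rfl⟩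
    filter_upwards [rat_aeval h T r, rat_aeval h T s,
      rat_mul h (aeval T s) (aeval T r / aeval T s)] with P k1 k2 k3
    rw [← k1, ← k2, ← k3, mul_div_cancel₀ _ e]
  · have := congrFun k (Fin.last _)
    simp [(minpoly.monic hi).coeff_natDegree] at this
  · have := minpoly.aeval (adjoin ℂ {T}) y
    rw [aeval_eq_sum_range, Finset.sum_range] at this
    exact (congrArg P.val this).trans (by simpa using rat_con h 0 P)

theorem rat_cof (hT : Transcendental ℂ T) : Tendsto (fun P : Pl L => P.val T) cofinite cofinite :=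
  .cofinite_of_finite_preimage_singleton fun t => Set.Finite.subset
    ((h.b.fin (T - algebraMap ℂ L t)).union (rat_mem h T)) fun P k => by
      by_cases a : T ∈ P.V
      · exact Or.inl (((h.a.val P T a t).2 k).resolve_left fun e =>
          hT (sub_eq_zero.1 e ▸ isAlgebraic_algebraMap t)).ne'
      · exact Or.inr a

end

theorem rat_hol {S : Finset (Pl L)} {x : L} (hx : ∀ P ∉ S, x ∈ P.V) : HolP S fun P => P.val x :=
  fun _ _ a b c => (b 0 (mem_ball_self a) x (hx _ c)).2

/-- The fibre. -/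
def ratF (T : L) (t : ℂ) : Set (Pl L) := {P | T ∈ P.V ∧ P.val T = t}

theorem rat_trace (h2 : SGrow) {θ : L} {d : ℕ} {E : Finset ℂ}
    (hf : ∀ t₀ ∉ E, ∃ (ε : ℝ) (α : Fin (d + 1) → ℂ → Pl L), 0 < ε ∧
      (∀ j, Arc (α j) (ball 0 ε)) ∧ ∀ s ∈ ball (0 : ℂ) ε,
        (∀ P : Pl L, (T ∈ P.V ∧ P.val T = t₀ + s) ↔ ∃ j, P = α j s) ∧ (∀ j, θ ∈ (α j s).V) ∧
        Function.Injective fun j => (α j s).val θ)
    {S : Finset (Pl L)} (h1 : HolP S φ) (hg : RatGr T φ) : ∃ p : ℂ[X], ∀ᶠ t in cofinite,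
      p.eval t = ∑ᶠ P ∈ ratF T t, φ P := by
  classical
  obtain ⟨N, hg⟩ := hg
  obtain ⟨C, hC⟩ := hg.bound
  have key : ∀ t ∉ E ∪ (S ∪ hC.toFinset).image fun P : Pl L => P.val T,
      AnalyticAt ℂ (fun t => ∑ᶠ P ∈ ratF T t, φ P) t ∧
      ‖∑ᶠ P ∈ ratF T t, φ P‖ ≤ (d + 1) * C * (1 + ‖t‖) ^ N := by
    intro t ht
    obtain ⟨ε, α, a1, a2, a3⟩ := hf t fun k => ht (mem_union_left _ k)
    have e : ∀ s ∈ ball (0 : ℂ) ε, ∑ᶠ P ∈ ratF T (t + s), φ P =
        ∑ j, φ (α j s) := fun s hs => by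
      rw [show ratF T (t + s) = Set.range fun j => α j s from
        Set.ext fun P => ((a3 s hs).1 P).trans (exists_congr fun _ => eq_comm),
        finsum_mem_range (Function.Injective.of_comp (f := fun P : Pl L => P.val θ) (a3 s hs).2.2),
        finsum_eq_sum_of_fintype]
    have v : ∀ j, (α j 0).val T = t := fun j => by
      simpa using (((a3 0 (mem_ball_self a1)).1 _).2 ⟨j, rfl⟩).2
    have n : ∀ j, α j 0 ∉ S ∪ hC.toFinset := fun j k =>
      ht (mem_union_right _ (mem_image.2 ⟨_, k, v j⟩))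
    constructor
    · have b1 : AnalyticAt ℂ (fun s => ∑ j, φ (α j s)) (t - t) := by
        rw [sub_self]
        exact Finset.analyticAt_fun_sum _ fun j _ =>
          h1 _ ε a1 (a2 j) fun k => n j (mem_union_left _ k)
      refine (b1.comp (f := fun u => u - t) (by fun_prop)).congr ?_
      filter_upwards [ball_mem_nhds t a1] with u hu
      simpa using (e (u - t) (by simpa [dist_eq_norm] using hu)).symm
    · have b1 := e 0 (mem_ball_self a1)
      rw [add_zero] at b1
      rw [b1]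
      refine (norm_sum_le _ _).trans ((sum_le_card_nsmul _ _ (C * (1 + ‖t‖) ^ N)
        fun j _ => ?_).trans_eq (by simp [mul_assoc]))
      have b2 := mt (fun k => mem_union_right S (hC.mem_toFinset.2 k)) (n j)
      simp only [Set.mem_compl_iff, Set.mem_ofPred_eq, not_not, v] at b2
      rwa [Real.norm_of_nonneg (by positivity)] at b2
  obtain ⟨p, hp⟩ := h2 _ _ _ N (fun t k => (key t k).1) fun t k => (key t k).2
  exact ⟨p, (Finset.eventually_cofinite_notMem _).mono fun t k => (hp t k).symm⟩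

theorem rat_ev (h1 : SFib) (h2 : SGrow) (hL : FFd L) {S : Finset (Pl L)} {h : Pl L → ℂ}
    (hh : HolP S h) (hT : Transcendental ℂ T) (ht : RatTm T h) :
    ∃ x : L, ∀ᶠ P : Pl L in cofinite, P.val x = h P := by
  classical
  obtain ⟨θ, d, E, hf⟩ := h1 L hL T hT
  obtain ⟨a, a0, ha⟩ := rat_tm hL hT θ
  obtain ⟨b, b0, hb⟩ := ht
  set S' := S ∪ (rat_mem hL T).toFinset ∪ (rat_mem hL θ).toFinset with hS
  have o1 : HolP S' fun P => P.val T := rat_hol fun P k => by_contra fun e => k (by simp [hS, e])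
  have o2 : HolP S' fun P => P.val θ := rat_hol fun P k => by_contra fun e => k (by simp [hS, e])
  have o3 : ∀ p : ℂ[X], HolP S' fun P => p.eval (P.val T) := fun p α ε k1 k2 k3 =>
    (o1 α ε k1 k2 k3).aeval_polynomial p
  have o4 : ∀ n : ℕ, HolP S' fun P => (a.eval (P.val T) * P.val θ) ^ n := fun n α ε k1 k2 k3 =>
    ((o3 a α ε k1 k2 k3).mul (o2 α ε k1 k2 k3)).pow n
  choose p hp using fun n : ℕ => rat_trace h2 hf (o4 n) (ha.pow n)
  choose q hq using fun n : ℕ => rat_trace h2 hf (S := S')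
    (φ := fun P => b.eval (P.val T) * h P * (a.eval (P.val T) * P.val θ) ^ n)
    (fun α ε k1 k2 k3 => ((o3 b α ε k1 k2 k3).mul (hh α ε k1 k2 fun k => k3 (by simp [hS, k]))).mul
      (o4 n α ε k1 k2 k3)) (hb.mul (ha.pow n))
  let M : Matrix (Fin (d + 1)) (Fin (d + 1)) ℂ[X] := fun k l => p (k + l)
  let c := Matrix.cramer M fun k => q k
  have nz : ∀ r : ℂ[X], r ≠ 0 → ∀ᶠ t in cofinite, r.eval t ≠ 0 := fun r k =>
    (finite_setOfPred_isRoot k).eventually_cofinite_notMem
  have key : ∀ᶠ t in cofinite, (b * M.det).eval t ≠ 0 ∧ ∀ P : Pl L, T ∈ P.V → P.val T = t →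
      ∑ l, (c l).eval t * (a.eval t * P.val θ) ^ (l : ℕ) = (b * M.det).eval t * h P := by
    filter_upwards [E.eventually_cofinite_notMem, nz a a0, nz b b0,
      eventually_all.2 fun k : Fin (d + 1) => eventually_all.2 fun l : Fin (d + 1) => hp (k + l),
      eventually_all.2 fun k : Fin (d + 1) => hq k] with t k1 k2 k3 k4 k5
    obtain ⟨ε, α, a1, -, a3⟩ := hf t k1
    obtain ⟨a4, -, a5⟩ := a3 0 (mem_ball_self a1)
    rw [add_zero] at a4
    have v : ∀ j, (α j 0).val T = t := fun j => ((a4 _).2 ⟨j, rfl⟩).2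
    rw [show ratF T t = Set.range fun j => α j 0 from
      Set.ext fun P => (a4 P).trans (exists_congr fun _ => eq_comm)] at k4 k5
    simp only [finsum_mem_range (Function.Injective.of_comp (f := fun P : Pl L => P.val θ) a5),
      finsum_eq_sum_of_fintype, v] at k4 k5
    obtain ⟨r1, r2⟩ := rat_lin (f := fun j => a.eval t * (α j 0).val θ)
      (g := fun j => b.eval t * h (α j 0)) (c := fun l => (c l).eval t) (b := fun k => (q k).eval t)
      (M := (evalRingHom t).mapMatrix M) (δ := M.det.eval t)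
      ((mul_right_injective₀ k2).comp a5) k4 k5 fun k => by
        have := congrArg (eval t) (congrFun (Matrix.mulVec_cramer M fun k => q k) k)
        simpa [Matrix.mulVec, dotProduct, eval_finsetSum] using this
    rw [← RingHom.map_det] at r1
    refine ⟨by rw [eval_mul]; exact mul_ne_zero k3 r1, fun P k6 k7 => ?_⟩
    obtain ⟨j, rfl⟩ := (a4 P).1 ⟨k6, k7⟩
    rw [r2 j, eval_mul]
    ring
  have v0 : aeval T (b * M.det) ≠ 0 := fun e => hT ⟨_, fun k => by
    obtain ⟨t, k', -⟩ := key.exists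
    exact k' (by rw [k, eval_zero]), e⟩
  refine ⟨(∑ l, aeval T (c l) * (aeval T a * θ) ^ (l : ℕ)) / aeval T (b * M.det), ?_⟩
  filter_upwards [(rat_cof hL hT).eventually key, rat_mem hL T, rat_aeval hL T (b * M.det),
    rat_mul hL (aeval T (b * M.det))
      ((∑ l, aeval T (c l) * (aeval T a * θ) ^ (l : ℕ)) / aeval T (b * M.det)),
    rat_sum hL (fun l => aeval T (c l)) (aeval T a * θ), rat_mul hL (aeval T a) θ,
    rat_aeval hL T a, eventually_all.2 fun l => rat_aeval hL T (c l)] with P k1 k2 k3 k4 k5 k6 k7 k8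
  rw [mul_div_cancel₀ _ v0, k5, k3, k6, k7] at k4
  simp only [k8, k1.2 P k2 rfl] at k4
  exact (mul_left_cancel₀ k1.1 k4).symm

theorem sRat (h1 : SFib) (h2 : SGrow) (h3 : SArcP) : SRat := by
  intro L _ _ hL S h d A hh hA hr
  obtain ⟨T, hT, -⟩ := hL.ff
  obtain ⟨x, hx⟩ := rat_ev h1 h2 hL hh hT
    (rat_alg hL ⊤ (fun y _ => rat_tm hL hT y) d A hA (fun _ => mem_top) hr)
  refine ⟨x, fun P hP => ?_⟩
  obtain ⟨α, ε, a1, rfl, a2, a3, a4⟩ := h3 L hL P
  have b1 := hh α ε a1 a2 hP
  have b2 : (fun s => (α s).val x) =ᶠ[𝓝[≠] 0] fun s => h (α s) := by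
    have := Set.Finite.of_injOn (s := {s ∈ ball 0 ε | ¬(α s).val x = h (α s)}) (fun s k => k.2)
      (a3.mono fun s k => k.1) hx
    filter_upwards [nhdsNE_le_cofinite 0 this.eventually_cofinite_notMem,
      nhdsWithin_le_nhds (ball_mem_nhds 0 a1)] with s k1 k2
    exact by_contra fun k => k1 ⟨k2, k⟩
  have b3 : x ∈ (α 0).V := by
    by_cases e : x = 0
    · exact e ▸ zero_mem _
    have := b1.meromorphicOrderAt_nonneg
    rw [← meromorphicOrderAt_congr b2, a4 x e] at this
    exact (hL.a.mem _ x e).2 (by exact_mod_cast this)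
  exact ⟨b3, tendsto_nhds_unique_of_eventuallyEq
    ((a2 0 (mem_ball_self a1) x b3).2.continuousAt.tendsto.mono_left nhdsWithin_le_nhds)
    (b1.continuousAt.tendsto.mono_left nhdsWithin_le_nhds) b2⟩

end Pool.Agent.MP_c69980_ag.H43
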